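import Pool.Agent.LRY.Stmts
import Pool.Agent.Helper98_LRN.FFX

/-!
Squad LRY, row LWQ: the lower bound (Y1).
-/

set_option autoImplicit false

open Polynomial NumberField
open Pool.Agent.LRG Pool.Agent.LRN

namespace Pool.Agent.LRY.H87

open Pool.Agent.LRY Pool.Agent.LRG.E

theorem kap_dl (r₁ r₂ : ℕ) (hr : 3 ≤ r₁ + r₂) : dl r₂ * (r₁ + 2 * r₂ + 1) ≤ 2 * kap r₁ r₂ := by
  unfold dl kap
  split_ifs <;> omega

theorem sizeFlds_mono (r₁ r₂ : ℕ) {X Y : ℝ} (hXY : X ≤ Y) : SizeFlds r₁ r₂ X ⊆ SizeFlds r₁ r₂ Y := by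
  rintro K ⟨hK, h1, h2, h3, u, hu, hb⟩
  exact ⟨hK, h1, h2, h3, u, hu, fun i σ => (hb i σ).trans hXY⟩

theorem lwq : LwqStmt := by
  intro h r₁ r₂ hr ε hε
  obtain ⟨C, N₀, hC⟩ := h r₁ r₂ hr
  obtain ⟨n, hn⟩ : ∃ n : ℕ, n = r₁ + 2 * r₂ := ⟨_, rfl⟩
  obtain ⟨b, hb⟩ : ∃ b : ℝ, b = bq r₁ r₂ := ⟨_, rfl⟩
  obtain ⟨δ, hδ⟩ : ∃ δ : ℕ, δ = dl r₂ := ⟨_, rfl⟩
  obtain ⟨κ, hκ⟩ : ∃ κ : ℕ, κ = kap r₁ r₂ := ⟨_, rfl⟩
  rw [← hn, ← hb, ← hδ, ← hκ] at hC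
  have hkd : δ * (n + 1) ≤ 2 * κ := by
    rw [hδ, hκ, hn]
    exact kap_dl r₁ r₂ hr
  have hδ1 : 1 ≤ δ := by
    rw [hδ]
    unfold dl
    split_ifs <;> omega
  have hb1 : 1 ≤ b := by
    rw [hb]
    unfold bq
    have h1 : (0 : ℝ) ≤ (r₁ : ℝ) := Nat.cast_nonneg _
    have h2 : (0 : ℝ) ≤ (r₂ : ℝ) := Nat.cast_nonneg _
    linarith
  have hb0 : 0 < b := by linarith
  obtain ⟨η, hη⟩ : ∃ η : ℝ, η = ε / (2 * (2 * (n : ℝ) + 1)) := ⟨_, rfl⟩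
  have hη0 : 0 < η := by
    rw [hη]
    positivity
  obtain ⟨D, hD⟩ : ∃ D : ℝ, D = 1 + 2 / η := ⟨_, rfl⟩
  have hD0 : 0 < D := by
    rw [hD]
    positivity
  obtain ⟨M, hM⟩ : ∃ M : ℝ, M = (2 * b) ^ κ * ((|C| + 1) ^ 2 * D ^ (2 * n)) := ⟨_, rfl⟩
  have hM0 : 0 < M := by
    rw [hM]
    have : 0 < |C| + 1 := by positivity
    positivity
  refine ⟨max 1 (max ((2 * b * ((N₀ : ℝ) + 1)) ^ δ) (M ^ (2 / ε))), fun X hX => ?_⟩
  have hX1 : 1 ≤ X := (le_max_left _ _).trans hX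
  have hX2 : (2 * b * ((N₀ : ℝ) + 1)) ^ δ ≤ X :=
    ((le_max_left _ _).trans (le_max_right _ _)).trans hX
  have hX3 : M ^ (2 / ε) ≤ X := ((le_max_right _ _).trans (le_max_right _ _)).trans hX
  have hX0 : 0 < X := by linarith
  have hδR : (1 : ℝ) ≤ (δ : ℝ) := by exact_mod_cast hδ1
  have hδR0 : (0 : ℝ) < (δ : ℝ) := by linarith
  obtain ⟨Z, hZ⟩ : ∃ Z : ℝ, Z = X ^ ((δ : ℝ)⁻¹) := ⟨_, rfl⟩
  have hZ0 : 0 < Z := by
    rw [hZ]
    exact Real.rpow_pos_of_pos hX0 _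
  have hZδ : Z ^ δ = X := by
    rw [hZ, ← Real.rpow_natCast, ← Real.rpow_mul hX0.le, inv_mul_cancel₀ hδR0.ne', Real.rpow_one]
  have hZX : Z ≤ X := by
    rw [hZ]
    calc X ^ ((δ : ℝ)⁻¹) ≤ X ^ (1 : ℝ) :=
          Real.rpow_le_rpow_of_exponent_le hX1 (inv_le_one_of_one_le₀ hδR)
      _ = X := Real.rpow_one _
  have hN₀ : (0 : ℝ) ≤ (N₀ : ℝ) := Nat.cast_nonneg _
  have hZb : 2 * b * ((N₀ : ℝ) + 1) ≤ Z := by
    by_contra hcon
    push Not at hcon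
    have h3 : Z ^ δ < (2 * b * ((N₀ : ℝ) + 1)) ^ δ := pow_lt_pow_left₀ hcon hZ0.le (by omega)
    rw [hZδ] at h3
    linarith
  obtain ⟨N, hN⟩ : ∃ N : ℕ, N = ⌊Z / b⌋₊ := ⟨_, rfl⟩
  have hNle : (N : ℝ) ≤ Z / b := by
    rw [hN]
    exact Nat.floor_le (by positivity)
  have hNlt : Z / b < (N : ℝ) + 1 := by
    rw [hN]
    exact Nat.lt_floor_add_one _
  have hbN : b * N ≤ Z := by
    rw [le_div_iff₀ hb0] at hNle
    linarith
  have hZ2b : (N₀ : ℝ) + 1 ≤ Z / (2 * b) := by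
    rw [le_div_iff₀ (by positivity)]
    linarith
  have hhalf : Z / b = 2 * (Z / (2 * b)) := by
    field_simp
  have hNge : Z / (2 * b) ≤ (N : ℝ) := by
    rw [hhalf] at hNlt
    linarith
  have hN0N : N₀ ≤ N := by
    have h4 : (N₀ : ℝ) ≤ (N : ℝ) := by linarith
    exact_mod_cast h4
  have hN1 : (1 : ℝ) ≤ (N : ℝ) := by linarith
  have hbN1 : 1 ≤ b * N := by nlinarith
  have hcfq := hC N hN0N
  have hmono : ((SizeFlds r₁ r₂ ((b * N) ^ δ)).ncard : ℝ) ≤ ((SizeFlds r₁ r₂ X).ncard : ℝ) := by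
    have h5 : (b * (N : ℝ)) ^ δ ≤ X := by
      rw [← hZδ]
      exact pow_le_pow_left₀ (by positivity) hbN δ
    exact_mod_cast Set.ncard_le_ncard (sizeFlds_mono r₁ r₂ h5) (Pool.Agent.LRN.H98.ffx r₁ r₂ X)
  -- the logarithmic factor
  have hXη0 : 0 < X ^ η := Real.rpow_pos_of_pos hX0 _
  have hXη1 : 1 ≤ X ^ η := Real.one_le_rpow hX1 hη0.le
  have hlog0 : 0 ≤ Real.log ((b * N) ^ 2) := Real.log_nonneg (by nlinarith)
  have hlog : 1 + Real.log ((b * N) ^ 2) ≤ D * X ^ η := by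
    have h6 : Real.log ((b * N) ^ 2) ≤ 2 * Real.log X := by
      rw [Real.log_pow]
      have h7 : Real.log (b * N) ≤ Real.log X := Real.log_le_log (by linarith) (hbN.trans hZX)
      push_cast
      linarith
    have h8 : Real.log X ≤ X ^ η / η := Real.log_le_rpow_div hX0.le hη0
    rw [hD]
    have h9 : (1 + 2 / η) * X ^ η = X ^ η + 2 * (X ^ η / η) := by ring
    rw [h9]
    linarith
  have hfac : (C * (1 + Real.log ((b * N) ^ 2)) ^ n) ^ 2 ≤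
      (|C| + 1) ^ 2 * D ^ (2 * n) * X ^ (ε / 2) := by
    have h10 : (1 + Real.log ((b * N) ^ 2)) ^ n ≤ (D * X ^ η) ^ n :=
      pow_le_pow_left₀ (by linarith) hlog n
    have h11 : ((1 + Real.log ((b * N) ^ 2)) ^ n) ^ 2 ≤ ((D * X ^ η) ^ n) ^ 2 :=
      pow_le_pow_left₀ (by positivity) h10 2
    have h12 : C ^ 2 ≤ (|C| + 1) ^ 2 := by
      have h13 : C ^ 2 = |C| ^ 2 := (sq_abs C).symm
      rw [h13]
      exact pow_le_pow_left₀ (abs_nonneg C) (by linarith) 2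
    have h14 : ((D * X ^ η) ^ n) ^ 2 ≤ D ^ (2 * n) * X ^ (ε / 2) := by
      have h15 : ((D * X ^ η) ^ n) ^ 2 = D ^ (2 * n) * (X ^ η) ^ (2 * n) := by ring
      rw [h15]
      apply mul_le_mul_of_nonneg_left _ (by positivity)
      rw [← Real.rpow_natCast, ← Real.rpow_mul hX0.le]
      apply Real.rpow_le_rpow_of_exponent_le hX1
      rw [hη]
      push_cast
      have h16 : (0 : ℝ) ≤ (n : ℝ) := Nat.cast_nonneg _
      rw [div_mul_eq_mul_div, div_le_div_iff₀ (by positivity) (by norm_num)]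
      nlinarith
    calc (C * (1 + Real.log ((b * N) ^ 2)) ^ n) ^ 2
        = C ^ 2 * ((1 + Real.log ((b * N) ^ 2)) ^ n) ^ 2 := by ring
      _ ≤ (|C| + 1) ^ 2 * (D ^ (2 * n) * X ^ (ε / 2)) := by
          apply mul_le_mul h12 (h11.trans h14) (by positivity) (by positivity)
      _ = (|C| + 1) ^ 2 * D ^ (2 * n) * X ^ (ε / 2) := by ring
  -- the main factor
  have hZκ : X ^ (((n : ℝ) + 1) / 2) ≤ Z ^ κ := by
    have h17 : Z ^ κ = X ^ ((δ : ℝ)⁻¹ * (κ : ℝ)) := by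
      rw [hZ, ← Real.rpow_natCast, ← Real.rpow_mul hX0.le]
    rw [h17]
    apply Real.rpow_le_rpow_of_exponent_le hX1
    have h18 : (δ : ℝ) * ((n : ℝ) + 1) ≤ 2 * (κ : ℝ) := by exact_mod_cast hkd
    rw [inv_mul_eq_div, div_le_div_iff₀ (by norm_num) hδR0]
    linarith
  have hZκ2 : Z ^ κ ≤ (2 * b) ^ κ * (N : ℝ) ^ κ := by
    rw [← mul_pow]
    apply pow_le_pow_left₀ hZ0.le
    rw [div_le_iff₀ (by positivity)] at hNge
    linarith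
  have hMX : M ≤ X ^ (ε / 2) := by
    have h19 : (M ^ (2 / ε)) ^ (ε / 2) ≤ X ^ (ε / 2) :=
      Real.rpow_le_rpow (Real.rpow_nonneg hM0.le _) hX3 (by positivity)
    rw [← Real.rpow_mul hM0.le] at h19
    have h20 : 2 / ε * (ε / 2) = 1 := by field_simp
    rw [h20, Real.rpow_one] at h19
    exact h19
  have hF0 : (0 : ℝ) ≤ ((SizeFlds r₁ r₂ X).ncard : ℝ) := Nat.cast_nonneg _
  have hXe0 : 0 < X ^ (ε / 2) := Real.rpow_pos_of_pos hX0 _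
  have hmain : X ^ (((n : ℝ) + 1) / 2) ≤ ((SizeFlds r₁ r₂ X).ncard : ℝ) * X ^ ε := by
    calc X ^ (((n : ℝ) + 1) / 2) ≤ (2 * b) ^ κ * (N : ℝ) ^ κ := hZκ.trans hZκ2
      _ ≤ (2 * b) ^ κ * (((SizeFlds r₁ r₂ X).ncard : ℝ) *
          ((|C| + 1) ^ 2 * D ^ (2 * n) * X ^ (ε / 2))) := by
          apply mul_le_mul_of_nonneg_left _ (by positivity)
          exact hcfq.trans (mul_le_mul hmono hfac (by positivity) hF0)
      _ = ((SizeFlds r₁ r₂ X).ncard : ℝ) * (M * X ^ (ε / 2)) := by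
          rw [hM]
          ring
      _ ≤ ((SizeFlds r₁ r₂ X).ncard : ℝ) * (X ^ (ε / 2) * X ^ (ε / 2)) := by
          apply mul_le_mul_of_nonneg_left _ hF0
          exact mul_le_mul_of_nonneg_right hMX hXe0.le
      _ = ((SizeFlds r₁ r₂ X).ncard : ℝ) * X ^ ε := by
          rw [← Real.rpow_add hX0, add_halves]
  have hexp : ((r₁ : ℝ) + 2 * r₂ + 1) / 2 - ε = ((n : ℝ) + 1) / 2 - ε := by
    rw [hn]
    push_cast
    ring
  rw [hexp, Real.rpow_sub hX0, div_le_iff₀ (Real.rpow_pos_of_pos hX0 _)]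
  exact hmain

end Pool.Agent.LRY.H87
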