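import Pool.Agent.LRY.Stmts

/-!
Squad LRY, row PDQ: the parameters are determined by the generator.
-/

set_option autoImplicit false

open Polynomial NumberField
open Pool.Agent.LRG Pool.Agent.LRN

namespace Pool.Agent.LRY.H87

open Pool.Agent.LRY Pool.Agent.LRG.E

theorem ex_inj {r₁ r₂ : ℕ} {k k' : Fa r₁ r₂} (h : ex k = ex k') : k = k' := by
  rcases k with i | j <;> rcases k' with i' | j'
  · simp only [ex, Sum.elim_inl] at h
    exact congrArg Sum.inl (Fin.ext h)
  · simp only [ex, Sum.elim_inl, Sum.elim_inr] at h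
    have := i.2
    omega
  · simp only [ex, Sum.elim_inl, Sum.elim_inr] at h
    have := i'.2
    omega
  · simp only [ex, Sum.elim_inr] at h
    exact congrArg Sum.inr (Fin.ext (by omega))

theorem wr_re {r₁ r₂ : ℕ} (a : Fa r₁ r₂ → ℤ) (c : Fin r₂ → ℤ) (o : Ro r₁ r₂) :
    (wr a c o).re = (a (fac o) : ℝ) := by
  rcases o with i | ⟨j, t⟩
  · simp [wr, fac]
  · cases t <;> simp [wr, fac]

theorem wr_im {r₁ r₂ : ℕ} (a : Fa r₁ r₂ → ℤ) (c : Fin r₂ → ℤ) (j : Fin r₂) (t : Bool) :
    (wr a c (Sum.inr (j, t) : Ro r₁ r₂)).im = (if t then 1 else -1) * Real.sqrt (c j : ℝ) := by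
  cases t <;> simp [wr]

theorem wr_eq {r₁ r₂ N : ℕ} {a a' : Fa r₁ r₂ → ℤ} {c c' : Fin r₂ → ℤ}
    {x x' : Ro r₁ r₂ → ℂ} {K : Type} [Field K] [NumberField K] {θ : K}
    {e e' : Ro r₁ r₂ ≃ (K →+* ℂ)} (hF : FcqStmt) (h : Fdq r₁ r₂ N a c x K θ e)
    (h' : Fdq r₁ r₂ N a' c' x' K θ e') (o : Ro r₁ r₂) : ∃ o' : Ro r₁ r₂, wr a c o = wr a' c' o' := by
  have hc0 : ∀ j, 0 ≤ c j := fun j => le_trans (by positivity) (h.par.clo j)
  have hc0' : ∀ j, 0 ≤ c' j := fun j => le_trans (by positivity) (h'.par.clo j)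
  have hG := (hF r₁ r₂ a c hc0).2.2.2
  have hG' := (hF r₁ r₂ a' c' hc0').2.2.2
  have h1 : ∏ o : Ro r₁ r₂, (X - C (x o)) = ∏ σ : K →+* ℂ, (X - C (σ θ)) := by
    rw [← Equiv.prod_comp e]
    exact Finset.prod_congr rfl fun o _ => by rw [h.emb o]
  have h2 : ∏ o : Ro r₁ r₂, (X - C (x' o)) = ∏ σ : K →+* ℂ, (X - C (σ θ)) := by
    rw [← Equiv.prod_comp e']
    exact Finset.prod_congr rfl fun o _ => by rw [h'.emb o]
  have h3 : (Gq a c - 1).map (Int.castRingHom ℂ) = (Gq a' c' - 1).map (Int.castRingHom ℂ) := by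
    rw [h.rts.prod, h'.rts.prod, h1, h2]
  have h4 : (Gq a c).map (Int.castRingHom ℂ) = (Gq a' c').map (Int.castRingHom ℂ) := by
    rw [Polynomial.map_sub, Polynomial.map_sub, sub_left_inj] at h3
    exact h3
  rw [hG, hG'] at h4
  have h5 := congrArg (Polynomial.eval (wr a c o)) h4
  rw [Polynomial.eval_prod, Polynomial.eval_prod, Finset.prod_eq_zero (Finset.mem_univ o) (by simp)]
    at h5
  obtain ⟨o', -, ho'⟩ := Finset.prod_eq_zero_iff.mp h5.symm
  refine ⟨o', ?_⟩
  simp only [eval_sub, eval_X, eval_C] at ho'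
  exact sub_eq_zero.mp ho'

theorem pdq (hF : FcqStmt) : PdqStmt := by
  intro _ r₁ r₂ N a a' c c' x x' K _ _ θ e e' hN hr h h'
  have hNZ : (1 : ℤ) ≤ (N : ℤ) := by exact_mod_cast hN
  have key : ∀ o : Ro r₁ r₂, ∃ o' : Ro r₁ r₂, fac o' = fac o ∧ a (fac o) = a' (fac o) ∧
      wr a c o = wr a' c' o' := by
    intro o
    obtain ⟨o', ho'⟩ := wr_eq hF h h' o
    have h1 := congrArg Complex.re ho'
    rw [wr_re, wr_re] at h1
    have h2 : a (fac o) = a' (fac o') := by exact_mod_cast h1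
    have h3 := h.par.alo (fac o)
    have h4 := h.par.ahi (fac o)
    have h5 := h'.par.alo (fac o')
    have h6 := h'.par.ahi (fac o')
    have h7 : ex (fac o) = ex (fac o') := by
      have h8 : 3 * (ex (fac o) : ℤ) ≤ 3 * (ex (fac o') : ℤ) + 1 := by
        by_contra hcon
        push Not at hcon
        nlinarith
      have h9 : 3 * (ex (fac o') : ℤ) ≤ 3 * (ex (fac o) : ℤ) + 1 := by
        by_contra hcon
        push Not at hcon
        nlinarith
      omega
    have h10 := ex_inj h7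
    exact ⟨o', h10.symm, by rw [h2, h10], ho'⟩
  constructor
  · funext k
    rcases k with i | j
    · obtain ⟨-, -, h1, -⟩ := key (Sum.inl i)
      exact h1
    · obtain ⟨-, -, h1, -⟩ := key (Sum.inr (j, true))
      exact h1
  · funext j
    obtain ⟨o', h0, -, h2⟩ := key (Sum.inr (j, true))
    have hc : (0 : ℝ) < (c j : ℝ) := by
      have h3 := h.par.clo j
      have h4 : (0 : ℤ) < c j := by nlinarith
      exact_mod_cast h4
    have hc' : (0 : ℝ) < (c' j : ℝ) := by
      have h3 := h'.par.clo j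
      have h4 : (0 : ℤ) < c' j := by nlinarith
      exact_mod_cast h4
    rcases o' with i' | ⟨j', t⟩
    · simp [fac] at h0
    · have hj : j' = j := by
        simpa [fac] using h0
      subst hj
      have h5 := congrArg Complex.im h2
      rw [wr_im, wr_im] at h5
      have h6 := Real.sqrt_pos.mpr hc
      have h7 := Real.sqrt_pos.mpr hc'
      cases t
      · exfalso
        simp only [if_true, one_mul, Bool.false_eq_true, if_false] at h5
        linarith
      · simp only [if_true, one_mul] at h5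
        have h8 : (c j' : ℝ) = (c' j' : ℝ) := (Real.sqrt_inj hc.le hc'.le).mp h5
        exact_mod_cast h8

end Pool.Agent.LRY.H87
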